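import Mathlib

/-!
# MP_06621a: the maximum number of distinct palindromic subsequences of a word of length `n`

For a letter `i` let `f` be the position of its first occurrence and `e` the position, counted from
the end, of its last occurrence. The palindromic subsequences that start with `i` are `i` and, if
`i` occurs twice, the words `i q i` where `q` is a (possibly empty) palindromic subsequence of the
word of length `n - f - e` between these occurrences. The numbers `f` are distinct and so are the
numbers `e`, and `m ↦ M(m) + 2` is convex, so by rearrangement the worst case is `f = e = 1, 2, ...`.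
-/

set_option autoImplicit false

namespace Pool.Agent.Results.MP_06621a_co.MaxPalSubsequences

/-- `SP(w)`: the number of distinct non-empty palindromes that occur as scattered subwords of `w`. -/
noncomputable def SP (w : List ℕ) : ℕ := {p : List ℕ | p ≠ [] ∧ p.reverse = p ∧ p.Sublist w}.ncard

/-- The number of distinct letters occurring in `w`. -/
noncomputable def alph (w : List ℕ) : ℕ := {x : ℕ | x ∈ w}.ncard

/-- The function `M(n)` of the problem. -/
def M (n : ℕ) : ℕ := if Odd n then 3 * 2 ^ ((n + 1) / 2 - 1) - 2 else 2 ^ (n / 2 + 1) - 2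

/-! ### The function `ψ = M + 2` -/

/-- `ψ(m) = M(m) + 2`. -/
def psi : ℕ → ℕ
  | 0 => 2
  | 1 => 3
  | m + 2 => 2 * psi m

theorem psi_pos (m : ℕ) : 2 ≤ psi m := by
  induction m using psi.induct with
  | case1 => simp [psi]
  | case2 => simp [psi]
  | case3 m ih => rw [psi]; omega

theorem psi_add_two (m : ℕ) : psi (m + 2) = 2 * psi m := by rw [psi]

theorem psi_even (k : ℕ) : psi (2 * k) = 2 ^ (k + 1) := by
  induction k with
  | zero => simp [psi]
  | succ k ih => rw [show 2 * (k + 1) = 2 * k + 2 by ring, psi_add_two, ih]; ring

theorem psi_odd (k : ℕ) : psi (2 * k + 1) = 3 * 2 ^ k := by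
  induction k with
  | zero => simp [psi]
  | succ k ih => rw [show 2 * (k + 1) + 1 = 2 * k + 1 + 2 by ring, psi_add_two, ih]; ring

theorem M_add_two (n : ℕ) : M n + 2 = psi n := by
  unfold M
  rcases Nat.even_or_odd' n with ⟨k, rfl | rfl⟩
  · rw [if_neg (by simp), psi_even, show 2 * k / 2 = k by omega]
    have : 2 ≤ 2 ^ (k + 1) := by
      calc 2 = 2 ^ 1 := rfl
        _ ≤ _ := Nat.pow_le_pow_right (by norm_num) (by omega)
    omega
  · rw [if_pos (by simp), psi_odd, show (2 * k + 1 + 1) / 2 - 1 = k by omega]
    have : 1 ≤ 2 ^ k := Nat.one_le_two_pow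
    omega

theorem psi_convex (m : ℕ) : 2 * psi (m + 1) ≤ psi m + psi (m + 2) ∧ psi m < psi (m + 1) := by
  induction m using psi.induct with
  | case1 => simp [psi]
  | case2 => simp [psi]
  | case3 m ih =>
    change 2 * psi (m + 2 + 1) ≤ psi (m + 2) + psi (m + 2 + 2) ∧ psi (m + 2) < psi (m + 2 + 1)
    have e1 : psi (m + 2 + 1) = 2 * psi (m + 1) := psi_add_two (m + 1)
    have e2 : psi (m + 2 + 2) = 2 * psi (m + 2) := psi_add_two (m + 2)
    have e3 := psi_add_two m
    omega

/-- The weight of a letter whose first occurrence and last occurrence (from the end) have positions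
with sum `t`, in a word of length `n`. -/
def Phi (n t : ℕ) : ℕ := if t ≤ n then psi (n - t) else n + 2 - t

theorem Phi_convex (n t : ℕ) : 2 * Phi n (t + 1) ≤ Phi n t + Phi n (t + 2) := by
  unfold Phi
  rcases lt_trichotomy (t + 1) n with h | h | h
  · rw [if_pos h.le, if_pos (by omega), if_pos (by omega)]
    obtain ⟨m, hm⟩ : ∃ m, n = t + 2 + m := ⟨n - (t + 2), by omega⟩
    rw [hm, show t + 2 + m - (t + 1) = m + 1 by omega, show t + 2 + m - t = m + 2 by omega,
      show t + 2 + m - (t + 2) = m by omega]
    have := psi_convex m
    omega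
  · subst h
    rw [if_pos le_rfl, if_pos (by omega), if_neg (by omega), Nat.sub_self,
      show t + 1 - t = 1 by omega, show t + 1 + 2 - (t + 2) = 1 by omega]
    simp [psi]
  · rw [if_neg (by omega)]
    rcases Nat.lt_or_ge n t with h2 | h2
    · rw [if_neg (by omega), if_neg (by omega)]
      omega
    · have : t = n := by omega
      subst this
      rw [if_pos le_rfl, if_neg (by omega), Nat.sub_self]
      simp [psi]

theorem Phi_anti_succ (n t : ℕ) : Phi n (t + 1) ≤ Phi n t := by
  unfold Phi
  rcases lt_trichotomy t n with h | h | h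
  · rw [if_pos (by omega), if_pos (by omega)]
    have := (psi_convex (n - (t + 1))).2
    rw [show n - (t + 1) + 1 = n - t by omega] at this
    omega
  · subst h
    rw [if_neg (by omega), if_pos le_rfl, Nat.sub_self]
    simp [psi]
  · rw [if_neg (by omega), if_neg (by omega)]
    omega

theorem Phi_anti (n : ℕ) {s t : ℕ} (h : s ≤ t) : Phi n t ≤ Phi n s := by
  induction t, h using Nat.le_induction with
  | base => exact le_rfl
  | succ t _ ih => exact (Phi_anti_succ n t).trans ih

theorem Phi_slope (n t d : ℕ) : Phi n (t + 1) + Phi n (t + d) ≤ Phi n t + Phi n (t + d + 1) := by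
  induction d with
  | zero => simp [Nat.add_comm]
  | succ d ih =>
    have h := Phi_convex n (t + d)
    rw [show t + (d + 1) = t + d + 1 by omega, show t + d + 1 + 1 = t + d + 2 by omega]
    omega

theorem Phi_super (n t c d : ℕ) : Phi n (t + c) + Phi n (t + d) ≤ Phi n t + Phi n (t + c + d) := by
  induction c with
  | zero => simp
  | succ c ih =>
    have h := Phi_slope n (t + c) d
    rw [show t + (c + 1) = t + c + 1 by omega, show t + c + 1 + d = t + c + d + 1 by omega]
    omega

/-- Rearrangement. -/
theorem rearr (n : ℕ) {ι : Type} [DecidableEq ι] (r : ℕ) : ∀ (s : Finset ι) (f e : ι → ℕ),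
    s.card = r → Set.InjOn f s → Set.InjOn e s → (∀ i ∈ s, 1 ≤ f i ∧ 1 ≤ e i) →
    ∑ i ∈ s, Phi n (f i + e i) ≤ ∑ k ∈ Finset.range r, Phi n (2 * (k + 1)) := by
  induction r with
  | zero =>
    intro s f e hs _ _ _
    rw [Finset.card_eq_zero] at hs
    simp [hs]
  | succ r ih =>
    intro s f e hs hf he hpos
    have hne : s.Nonempty := by rw [← Finset.card_pos]; omega
    obtain ⟨a, ha, hamax⟩ := s.exists_max_image f hne
    obtain ⟨b, hb, hbmax⟩ := s.exists_max_image e hne
    have big : ∀ g : ι → ℕ, Set.InjOn g s → (∀ i ∈ s, 1 ≤ g i) → ∀ c, (∀ i ∈ s, g i ≤ g c) →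
        r + 1 ≤ g c := by
      intro g hg hg1 c hc
      have h1 : s.image g ⊆ Finset.Icc 1 (g c) := by
        intro x hx
        obtain ⟨i, hi, rfl⟩ := Finset.mem_image.1 hx
        exact Finset.mem_Icc.2 ⟨hg1 i hi, hc i hi⟩
      have h2 := Finset.card_le_card h1
      rw [Finset.card_image_of_injOn hg, hs, Nat.card_Icc] at h2
      omega
    have hfa := big f hf (fun i hi => (hpos i hi).1) a hamax
    have heb := big e he (fun i hi => (hpos i hi).2) b hbmax
    set e' : ι → ℕ := fun i => e (Equiv.swap a b i) with he'
    have hsw : ∀ i ∈ s, Equiv.swap a b i ∈ s := by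
      intro i hi
      rcases eq_or_ne i a with rfl | h1
      · rw [Equiv.swap_apply_left]; exact hb
      · rcases eq_or_ne i b with rfl | h2
        · rw [Equiv.swap_apply_right]; exact ha
        · rw [Equiv.swap_apply_of_ne_of_ne h1 h2]; exact hi
    have he'inj : Set.InjOn e' s := by
      intro i hi j hj hij
      have := he (hsw i hi) (hsw j hj) hij
      exact (Equiv.swap a b).injective this
    have hsum : ∑ i ∈ s, Phi n (f i + e i) ≤ ∑ i ∈ s, Phi n (f i + e' i) := by
      rcases eq_or_ne a b with rfl | hab
      · simp [he']
      · have hb' : b ∈ s.erase a := Finset.mem_erase.2 ⟨hab.symm, hb⟩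
        rw [← Finset.add_sum_erase _ _ ha, ← Finset.add_sum_erase _ _ hb',
          ← Finset.add_sum_erase s (fun i => Phi n (f i + e' i)) ha,
          ← Finset.add_sum_erase _ _ hb', ← add_assoc, ← add_assoc]
        apply Nat.add_le_add
        · have h1 : e' a = e b := by simp [he']
          have h2 : e' b = e a := by simp [he']
          rw [h1, h2]
          have h3 := hamax b hb
          have h4 := hbmax a ha
          have h5 := Phi_super n (f b + e a) (f a - f b) (e b - e a)
          rw [show f b + e a + (f a - f b) = f a + e a by omega,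
            show f b + e a + (e b - e a) = f b + e b by omega,
            show f a + e a + (e b - e a) = f a + e b by omega] at h5
          omega
        · apply le_of_eq
          apply Finset.sum_congr rfl
          intro i hi
          have h1 : i ≠ b := (Finset.mem_erase.1 hi).1
          have h2 : i ≠ a := (Finset.mem_erase.1 (Finset.mem_erase.1 hi).2).1
          simp [he', Equiv.swap_apply_of_ne_of_ne h2 h1]
    refine hsum.trans ?_
    rw [← Finset.add_sum_erase _ _ ha, Finset.sum_range_succ, add_comm]
    apply Nat.add_le_add
    · apply ih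
      · rw [Finset.card_erase_of_mem ha, hs]; rfl
      · exact hf.mono (fun i hi => (Finset.mem_erase.1 hi).2)
      · exact he'inj.mono (fun i hi => (Finset.mem_erase.1 hi).2)
      · intro i hi
        have hi' := (Finset.mem_erase.1 hi).2
        exact ⟨(hpos i hi').1, (hpos _ (hsw i hi')).2⟩
    · apply Phi_anti
      have : e' a = e b := by simp [he']
      rw [this]; omega

/-! ### The recursion -/

/-- The non-empty palindromic subsequences, as a finite set. -/
def pal (w : List ℕ) : Finset (List ℕ) :=
  w.sublists.toFinset.filter fun p => p ≠ [] ∧ p.reverse = p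

theorem mem_pal {w p : List ℕ} : p ∈ pal w ↔ p ≠ [] ∧ p.reverse = p ∧ p.Sublist w := by
  simp only [pal, Finset.mem_filter, List.mem_toFinset, List.mem_sublists]
  tauto

theorem SP_eq (w : List ℕ) : SP w = (pal w).card := by
  unfold SP
  rw [← Set.ncard_coe_finset]
  congr 1
  ext p
  simp [mem_pal]

theorem alph_eq (w : List ℕ) : alph w = w.toFinset.card := by
  unfold alph
  rw [← Set.ncard_coe_finset]
  congr 1
  ext x
  simp

theorem drop_of_cons_sublist {i : ℕ} {q w : List ℕ} (h : (i :: q).Sublist w) :
    q.Sublist (w.drop (w.idxOf i + 1)) := by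
  induction w with
  | nil => simp at h
  | cons b w ih =>
    by_cases hb : b = i
    · subst hb
      simpa using h
    · rw [List.idxOf_cons_ne _ hb, List.drop_succ_cons]
      apply ih
      cases h with
      | cons _ h => exact h
      | cons_cons _ h => exact absurd rfl hb

/-- Position (from `1`) of the first occurrence of `i`. -/
def ff (w : List ℕ) (i : ℕ) : ℕ := w.idxOf i + 1

/-- Position, from the end (from `1`), of the last occurrence of `i`. -/
def ee (w : List ℕ) (i : ℕ) : ℕ := w.reverse.idxOf i + 1

/-- The word between the first and the last occurrence of `i`. -/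
def mid (w : List ℕ) (i : ℕ) : List ℕ := (((w.drop (ff w i)).reverse).drop (ee w i)).reverse

theorem mid_length (w : List ℕ) (i : ℕ) : (mid w i).length = w.length - ff w i - ee w i := by
  simp [mid]

theorem sublist_mid {i : ℕ} {q w : List ℕ} (h : (i :: (q ++ [i])).Sublist w) :
    q.Sublist (mid w i) ∧ ff w i + ee w i ≤ w.length := by
  have h1 : (q ++ [i]).Sublist (w.drop (ff w i)) := drop_of_cons_sublist h
  have h2 : (i :: q.reverse).Sublist (w.drop (ff w i)).reverse := by
    have := List.reverse_sublist.2 h1
    simpa using this
  have hmem : i ∈ (w.drop (ff w i)).reverse := h2.subset (by simp)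
  have h3 : (w.drop (ff w i)).reverse.idxOf i = w.reverse.idxOf i := by
    conv_rhs => rw [← List.take_append_drop (ff w i) w, List.reverse_append]
    rw [List.idxOf_append_of_mem hmem]
  have h4 := drop_of_cons_sublist h2
  rw [h3] at h4
  constructor
  · have := List.reverse_sublist.2 h4
    simpa [mid, ee] using this
  · have h5 : (w.drop (ff w i)).reverse.idxOf i < (w.drop (ff w i)).reverse.length :=
      List.idxOf_lt_length_of_mem hmem
    rw [h3, List.length_reverse, List.length_drop] at h5
    unfold ee
    omega

/-- The palindromic subsequences that start with `i`. -/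
def palAt (w : List ℕ) (i : ℕ) : Finset (List ℕ) := (pal w).filter fun p => p.head? = some i

theorem palAt_cases {w p : List ℕ} {i : ℕ} (h : p ∈ palAt w i) : p = [i] ∨
    ∃ q, p = i :: (q ++ [i]) ∧ q.reverse = q ∧ (i :: (q ++ [i])).Sublist w := by
  simp only [palAt, Finset.mem_filter, mem_pal] at h
  obtain ⟨⟨h1, h2, h3⟩, h4⟩ := h
  have hp : p.Palindrome := List.Palindrome.of_reverse_eq h2
  cases hp with
  | nil => exact absurd rfl h1
  | singleton x => left; simpa using h4
  | cons_concat x hl =>
    rename_i l
    right
    have : x = i := by simpa using h4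
    subst this
    exact ⟨l, rfl, hl.reverse_eq, h3⟩

theorem card_palAt_one {w : List ℕ} {i : ℕ} (h : w.count i ≤ 1) : (palAt w i).card ≤ 1 := by
  have : palAt w i ⊆ {[i]} := by
    intro p hp
    rcases palAt_cases hp with h1 | ⟨q, -, -, h4⟩
    · simp [h1]
    · have := h4.count_le i
      rw [List.count_cons_self, List.count_append, List.count_singleton_self] at this
      omega
  exact (Finset.card_le_card this).trans (by simp)

theorem card_palAt {w : List ℕ} {i : ℕ} : (palAt w i).card ≤ 2 + (pal (mid w i)).card := by
  have : palAt w i ⊆ insert [i] (insert [i, i] ((pal (mid w i)).image fun q => i :: (q ++ [i]))) := by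
    intro p hp
    rcases palAt_cases hp with h1 | ⟨q, rfl, h3, h4⟩
    · simp [h1]
    · rcases eq_or_ne q [] with rfl | hq
      · simp
      · rw [Finset.mem_insert, Finset.mem_insert, Finset.mem_image]
        right; right
        exact ⟨q, mem_pal.2 ⟨hq, h3, (sublist_mid h4).1⟩, rfl⟩
  refine (Finset.card_le_card this).trans ?_
  refine (Finset.card_insert_le _ _).trans ?_
  have h1 := Finset.card_insert_le [i, i] ((pal (mid w i)).image fun q => i :: (q ++ [i]))
  have h2 := Finset.card_image_le (s := pal (mid w i)) (f := fun q => i :: (q ++ [i]))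
  omega

theorem pal_sub (w : List ℕ) : pal w ⊆ w.toFinset.biUnion fun i => palAt w i := by
  intro p hp
  have h := mem_pal.1 hp
  cases p with
  | nil => exact absurd rfl h.1
  | cons i q =>
    rw [Finset.mem_biUnion]
    refine ⟨i, ?_, ?_⟩
    · rw [List.mem_toFinset]; exact h.2.2.subset (by simp)
    · simp [palAt, hp]

theorem two_le_count {w : List ℕ} {i : ℕ} (h : 2 ≤ w.count i) : ff w i + ee w i ≤ w.length := by
  have h1 : ([i, i] : List ℕ).Sublist w := by
    have := List.replicate_sublist_iff.2 h
    simpa [List.replicate] using this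
  exact (sublist_mid (q := []) h1).2

/-- The key estimate: with `r` letters occurring at least twice and `s` letters occurring once,
`SP(w)` is at most `s + ∑_{k ≤ r} ψ(n - 2k)`. -/
theorem key (w : List ℕ) (ih : ∀ v : List ℕ, v.length < w.length → (pal v).card ≤ M v.length) :
    ∃ r s : ℕ, r + s = w.toFinset.card ∧ 2 * r + s ≤ w.length ∧
      (pal w).card ≤ s + ∑ k ∈ Finset.range r, Phi w.length (2 * (k + 1)) := by
  classical
  set A := w.toFinset.filter fun i => 2 ≤ w.count i with hA
  set B := w.toFinset.filter fun i => ¬ 2 ≤ w.count i with hB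
  refine ⟨A.card, B.card, Finset.card_filter_add_card_filter_not _, ?_, ?_⟩
  · have h1 : ∑ i ∈ w.toFinset, w.count i = w.length := List.sum_toFinset_count_eq_length w
    rw [← h1, ← Finset.sum_filter_add_sum_filter_not w.toFinset (fun i => 2 ≤ w.count i)]
    apply Nat.add_le_add
    · rw [mul_comm, ← smul_eq_mul]
      exact Finset.card_nsmul_le_sum _ _ _ fun i hi => (Finset.mem_filter.1 hi).2
    · rw [Finset.card_eq_sum_ones]
      apply Finset.sum_le_sum
      intro i hi
      have := List.mem_toFinset.1 (Finset.mem_filter.1 hi).1
      exact List.count_pos_iff.2 this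
  · calc (pal w).card ≤ (w.toFinset.biUnion fun i => palAt w i).card :=
          Finset.card_le_card (pal_sub w)
      _ ≤ ∑ i ∈ w.toFinset, (palAt w i).card := Finset.card_biUnion_le
      _ = ∑ i ∈ A, (palAt w i).card + ∑ i ∈ B, (palAt w i).card :=
          (Finset.sum_filter_add_sum_filter_not _ _ _).symm
      _ ≤ ∑ i ∈ A, Phi w.length (ff w i + ee w i) + B.card := by
          apply Nat.add_le_add
          · apply Finset.sum_le_sum
            intro i hi
            have h2 := two_le_count (Finset.mem_filter.1 hi).2
            have hl := mid_length w i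
            have h3 := ih (mid w i) (by rw [hl]; unfold ff; unfold ff ee at h2; omega)
            have h4 := M_add_two (mid w i).length
            have h5 := card_palAt (w := w) (i := i)
            unfold Phi
            rw [if_pos h2]
            rw [hl, Nat.sub_sub] at h3 h4
            omega
          · rw [Finset.card_eq_sum_ones]
            apply Finset.sum_le_sum
            intro i hi
            exact card_palAt_one (by have := (Finset.mem_filter.1 hi).2; omega)
      _ ≤ _ := by
          rw [add_comm]
          apply Nat.add_le_add le_rfl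
          apply rearr w.length A.card A (ff w) (ee w) rfl
          · intro i hi j _ hij
            have hi' : i ∈ w := List.mem_toFinset.1 (Finset.mem_filter.1 hi).1
            have : w.idxOf i = w.idxOf j := by
              simp only [ff] at hij; omega
            exact (List.idxOf_inj hi').1 this
          · intro i hi j _ hij
            have hi' : i ∈ w.reverse := by
              rw [List.mem_reverse]
              exact List.mem_toFinset.1 (Finset.mem_filter.1 hi).1
            have : w.reverse.idxOf i = w.reverse.idxOf j := by
              simp only [ee] at hij; omega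
            exact (List.idxOf_inj hi').1 this
          · intro i _
            exact ⟨by unfold ff; omega, by unfold ee; omega⟩

theorem sum_Phi (n r : ℕ) (h : 2 * r ≤ n) :
    ∑ k ∈ Finset.range r, Phi n (2 * (k + 1)) + psi (n - 2 * r) = psi n := by
  induction r with
  | zero => simp
  | succ r ih =>
    rw [Finset.sum_range_succ]
    have h1 := ih (by omega)
    have h2 : Phi n (2 * (r + 1)) = psi (n - 2 * (r + 1)) := by
      unfold Phi; rw [if_pos h]
    have h3 := psi_add_two (n - 2 * (r + 1))
    rw [show n - 2 * (r + 1) + 2 = n - 2 * r by omega] at h3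
    omega

theorem add_two_le_psi (t : ℕ) : t + 2 ≤ psi t ∧ (2 < t → t + 2 < psi t) := by
  induction t using psi.induct with
  | case1 => simp [psi]
  | case2 => simp [psi]
  | case3 m ih =>
    rw [psi_add_two]
    refine ⟨by omega, fun h => ?_⟩
    omega

theorem upper (w : List ℕ) : (pal w).card ≤ M w.length ∧ ((pal w).card = M w.length →
    ∃ r t : ℕ, t ≤ 2 ∧ w.length = 2 * r + t ∧ w.toFinset.card = r + t) := by
  induction hn : w.length using Nat.strong_induction_on generalizing w with
  | _ n ih =>
    subst hn
    obtain ⟨r, s, h1, h2, h3⟩ := key w (fun v hv => (ih v.length hv v rfl).1)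
    have h4 := sum_Phi w.length r (by omega)
    have h5 := add_two_le_psi (w.length - 2 * r)
    have h6 := M_add_two w.length
    refine ⟨by omega, fun h => ⟨r, w.length - 2 * r, ?_, by omega, by omega⟩⟩
    by_contra hcon
    have := h5.2 (by omega)
    omega

/-! ### The extremal words -/

/-- Words attaining the maximum. -/
def W : ℕ → List ℕ
  | 0 => []
  | 1 => [1]
  | n + 2 => (n + 2) :: (W n ++ [n + 2])

theorem W_length (n : ℕ) : (W n).length = n := by
  induction n using W.induct with
  | case1 => rfl
  | case2 => rfl
  | case3 n ih => simp [W, ih]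

theorem W_le (n : ℕ) : ∀ x ∈ W n, x ≤ n := by
  induction n using W.induct with
  | case1 => simp [W]
  | case2 => simp [W]
  | case3 n ih =>
    intro x hx
    simp only [W, List.mem_cons, List.mem_append, List.not_mem_nil, or_false] at hx
    rcases hx with rfl | h | rfl
    · exact le_rfl
    · have := ih x h; omega
    · exact le_rfl

theorem lower (n : ℕ) : M n ≤ (pal (W n)).card := by
  induction n using W.induct with
  | case1 => simp [M]
  | case2 => decide
  | case3 n ih =>
    change M (n + 2) ≤ (pal (W (n + 2))).card
    have hM : M (n + 2) = 2 * M n + 2 := by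
      have h1 := M_add_two (n + 2)
      have h2 := M_add_two n
      rw [psi_add_two] at h1
      omega
    have hnot : n + 2 ∉ W n := fun h => by have := W_le n _ h; omega
    have hsub : insert [n + 2] (insert [n + 2, n + 2]
        ((pal (W n)).image (fun q => (n + 2) :: (q ++ [n + 2])) ∪ pal (W n))) ⊆ pal (W (n + 2)) := by
      intro p hp
      rw [Finset.mem_insert, Finset.mem_insert, Finset.mem_union, Finset.mem_image] at hp
      rw [mem_pal, W]
      rcases hp with rfl | rfl | ⟨q, hq, rfl⟩ | hq
      · refine ⟨by simp, by simp, ?_⟩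
        exact List.Sublist.cons_cons _ (List.nil_sublist _)
      · refine ⟨by simp, by simp, ?_⟩
        exact List.Sublist.cons_cons _ (List.sublist_append_right _ _)
      · have h := mem_pal.1 hq
        refine ⟨by simp, by simp [h.2.1], ?_⟩
        exact List.Sublist.cons_cons _ (h.2.2.append (List.Sublist.refl _))
      · have h := mem_pal.1 hq
        exact ⟨h.1, h.2.1, (h.2.2.trans (List.sublist_append_left _ _)).cons _⟩
    have hnp : ∀ p ∈ pal (W n), n + 2 ∉ p := fun p hp h => hnot ((mem_pal.1 hp).2.2.subset h)
    refine le_trans ?_ (Finset.card_le_card hsub)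
    rw [Finset.card_insert_of_notMem, Finset.card_insert_of_notMem, Finset.card_union_of_disjoint,
      Finset.card_image_of_injective]
    · omega
    · intro p q hpq
      simpa using hpq
    · rw [Finset.disjoint_left]
      intro p hp hq
      obtain ⟨q, -, rfl⟩ := Finset.mem_image.1 hp
      exact hnp _ hq (by simp)
    · rw [Finset.mem_union, Finset.mem_image]
      rintro (⟨q, hq, h⟩ | h)
      · have : q = [] := by simpa using h
        exact (mem_pal.1 hq).1 this
      · exact hnp _ h (by simp)
    · rw [Finset.mem_insert, Finset.mem_union, Finset.mem_image]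
      rintro (h | ⟨q, hq, h⟩ | h)
      · simp at h
      · simp at h
      · exact hnp _ h (by simp)

/-- **The answer to Q1 is positive.** For every `n ≥ 1` the maximum of `SP(w)` over all words `w` of
length `n` equals `M(n)`, and a word of length `n` attains this maximum only if its number `q` of
distinct letters satisfies `q = ⌈n/2⌉` when `n` is odd and `q ∈ {n/2, n/2 + 1}` when `n` is even. -/
theorem result (n : ℕ) (_ : 1 ≤ n) :
    IsGreatest {k : ℕ | ∃ w : List ℕ, w.length = n ∧ SP w = k} (M n) ∧
    ∀ w : List ℕ, w.length = n → SP w = M n →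
      (Odd n → alph w = (n + 1) / 2) ∧ (Even n → alph w = n / 2 ∨ alph w = n / 2 + 1) := by
  refine ⟨⟨⟨W n, W_length n, ?_⟩, ?_⟩, ?_⟩
  · rw [SP_eq]
    have h1 := (upper (W n)).1
    rw [W_length] at h1
    exact le_antisymm h1 (lower n)
  · rintro k ⟨w, hw, rfl⟩
    rw [SP_eq, ← hw]
    exact (upper w).1
  · intro w hw h
    rw [SP_eq, ← hw] at h
    obtain ⟨r, t, ht, h1, h2⟩ := (upper w).2 h
    rw [alph_eq, h2]
    constructor
    · rintro ⟨k, hk⟩; omega
    · rintro ⟨k, hk⟩; omega

end Pool.Agent.Results.MP_06621a_co.MaxPalSubsequences
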